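import Mathlib

/-!
# MP_14ad9d_nt : quadratic fields

For every quadratic field `K` there is an affine plane curve over `ℤ` (a Pell conic) with
infinitely many `ℤ`-points and no further `𝓞 K`-point.
-/

namespace Pool.Agent.Results.MP_14ad9d_nt.QuadraticFields

open NumberField Module

section conj

variable {K : Type*} [Field K] [NumberField K]

/-- conjugation of a quadratic field -/
theorem exists_conj (h : finrank ℚ K = 2) : ∃ σ : K ≃ₐ[ℚ] K, (∀ x, σ (σ x) = x) ∧
    (∀ x, σ x = x → ∃ q : ℚ, x = (q : K)) ∧ ∃ x, σ x ≠ x := by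
  classical
  have : Algebra.IsQuadraticExtension ℚ K := ⟨h⟩
  have hc : Nat.card (K ≃ₐ[ℚ] K) = 2 := by
    rw [IsGalois.card_aut_eq_finrank, h]
  have : Nontrivial (K ≃ₐ[ℚ] K) := by
    rw [← Finite.one_lt_card_iff_nontrivial, hc]
    norm_num
  obtain ⟨σ, hσ⟩ := exists_ne (1 : K ≃ₐ[ℚ] K)
  have hall : ∀ τ : K ≃ₐ[ℚ] K, τ = 1 ∨ τ = σ := by
    intro τ
    by_contra hcon
    push Not at hcon
    have h3 : ({1, σ, τ} : Finset (K ≃ₐ[ℚ] K)).card ≤ Nat.card (K ≃ₐ[ℚ] K) := by
      rw [Nat.card_eq_fintype_card]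
      exact Finset.card_le_univ _
    rw [hc, Finset.card_eq_three.2 ⟨1, σ, τ, hσ.symm, hcon.1.symm, hcon.2.symm, rfl⟩] at h3
    omega
  have hsq : σ * σ = 1 := by
    rcases hall (σ * σ) with h1 | h1
    · exact h1
    · exfalso
      apply hσ
      simpa using h1
  refine ⟨σ, fun x => ?_, fun x hx => ?_, ?_⟩
  · have := congrArg (fun τ : K ≃ₐ[ℚ] K => τ x) hsq
    simpa using this
  · have : x ∈ (⊥ : IntermediateField ℚ K) := by
      rw [IsGalois.mem_bot_iff_fixed]
      intro τ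
      rcases hall τ with h1 | h1
      · rw [h1]; rfl
      · rw [h1]; exact hx
    obtain ⟨q, hq⟩ := IntermediateField.mem_bot.1 this
    exact ⟨q, by rw [← hq]; simp⟩
  · by_contra hcon
    push Not at hcon
    exact hσ (AlgEquiv.ext fun x => by simpa using hcon x)

/-- an integral rational is an integer -/
theorem int_of_rat {x : K} (hx : IsIntegral ℤ x) {q : ℚ} (hq : x = (q : K)) :
    ∃ n : ℤ, x = (n : K) ∧ q = n := by
  have h1 : IsIntegral ℤ (algebraMap ℚ K q) := by
    rw [hq] at hx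
    simpa using hx
  have h2 : IsIntegral ℤ q :=
    (isIntegral_algebraMap_iff (algebraMap ℚ K).injective).1 h1
  obtain ⟨n, hn⟩ := IsIntegrallyClosed.isIntegral_iff.1 h2
  refine ⟨n, ?_, ?_⟩
  · rw [hq, ← hn]; simp
  · rw [← hn]; simp

end conj

/-- the data used below -/
structure Conj (K : Type*) [Field K] [NumberField K] where
  s : K ≃ₐ[ℚ] K
  inv : ∀ x, s (s x) = x
  fix : ∀ x, s x = x → ∃ q : ℚ, x = (q : K)
  d : ℤ
  sf : Squarefree d
  δ : K
  hδ : δ ^ 2 = d
  sδ : s δ = -δ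
  δ0 : δ ≠ 0

section conj2

variable {K : Type*} [Field K] [NumberField K]

theorem nonempty_conj (h : finrank ℚ K = 2) : Nonempty (Conj K) := by
  obtain ⟨σ, h1, h2, x0, hx0⟩ := exists_conj h
  set β : K := x0 - σ x0 with hβ
  have hβ0 : β ≠ 0 := sub_ne_zero.2 (fun h => hx0 h.symm)
  have hσβ : σ β = -β := by
    rw [hβ, map_sub, h1]; ring
  obtain ⟨r, hr⟩ := h2 (β ^ 2) (by rw [map_pow, hσβ]; ring)
  have hr0 : r ≠ 0 := by
    rintro rfl
    have : β ^ 2 = 0 := by rw [hr]; simp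
    exact hβ0 (pow_eq_zero_iff (two_ne_zero) |>.1 this)
  have hm : r.num * r.den ≠ 0 := mul_ne_zero (Rat.num_ne_zero.2 hr0) (by exact_mod_cast r.den_ne_zero)
  obtain ⟨a, b, hab, ha⟩ := Nat.sq_mul_squarefree (r.num * r.den).natAbs
  have hb0 : b ≠ 0 := by
    rintro rfl
    apply hm
    rw [← Int.natAbs_eq_zero, ← hab]; simp
  obtain ⟨d, hd, hdsf⟩ : ∃ d : ℤ, (b : ℤ) ^ 2 * d = r.num * r.den ∧ Squarefree d := by
    rcases Int.natAbs_eq (r.num * r.den) with h | h
    · refine ⟨a, ?_, ?_⟩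
      · rw [h, ← hab]; push_cast; ring
      · exact Int.squarefree_natCast.2 ha
    · refine ⟨-a, ?_, ?_⟩
      · rw [h, ← hab]; push_cast; ring
      · rw [← Int.squarefree_natAbs]
        simpa using ha
  have hbK : (b : K) ≠ 0 := by exact_mod_cast hb0
  refine ⟨⟨σ, h1, h2, d, hdsf, (r.den : K) * β / b, ?_, ?_, ?_⟩⟩
  · have h5 : ((r.num : ℚ)) / (r.den : ℚ) = r := Rat.num_div_den r
    have hden : (r.den : K) ≠ 0 := by exact_mod_cast r.den_ne_zero
    have h6 : β ^ 2 = (r.num : K) / (r.den : K) := by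
      rw [hr]
      conv_lhs => rw [← h5]
      push_cast
      rfl
    have h7 : ((b : K)) ^ 2 * (d : K) = (r.num : K) * (r.den : K) := by exact_mod_cast congrArg (Int.cast : ℤ → K) hd
    have h8 : ((r.den : K) * β / b) ^ 2 = (r.den : K) ^ 2 * β ^ 2 / b ^ 2 := by ring
    rw [h8, h6]
    field_simp
    linear_combination -h7
  · rw [map_div₀, map_mul, hσβ, map_natCast, map_natCast]; ring
  · have hden : (r.den : K) ≠ 0 := by exact_mod_cast r.den_ne_zero
    exact div_ne_zero (mul_ne_zero hden hβ0) hbK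

variable (C : Conj K)

theorem integral_s {x : K} (hx : IsIntegral ℤ x) : IsIntegral ℤ (C.s x) := by
  have := hx.map (C.s.toAlgHom.restrictScalars ℤ)
  simpa using this

theorem int_of_fixed {x : K} (hx : IsIntegral ℤ x) (h : C.s x = x) : ∃ n : ℤ, x = (n : K) := by
  obtain ⟨q, hq⟩ := C.fix x h
  obtain ⟨n, hn, -⟩ := int_of_rat hx hq
  exact ⟨n, hn⟩

/-- `x` of trace zero is an integral multiple of `δ` -/
theorem int_mul {x : K} (hx : IsIntegral ℤ x) (h : C.s x = -x) : ∃ r : ℤ, x = (r : K) * C.δ := by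
  have h1 : C.s (x / C.δ) = x / C.δ := by
    rw [map_div₀, h, C.sδ, neg_div_neg_eq]
  obtain ⟨q, hq⟩ := C.fix _ h1
  have hx' : x = (q : K) * C.δ := by
    rw [← hq, div_mul_cancel₀ _ C.δ0]
  have h2 : x ^ 2 = ((q ^ 2 * C.d : ℚ) : K) := by
    rw [hx', mul_pow, C.hδ]; push_cast; ring
  obtain ⟨n, -, hn⟩ := int_of_rat (hx.pow 2) h2
  -- `q ^ 2 * d = n`
  have h3 : (q.num) ^ 2 * C.d = n * (q.den : ℤ) ^ 2 := by
    have h4 : (q.num : ℚ) = q * q.den := (Rat.mul_den_eq_num q).symm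
    have h5 : ((q.num : ℚ)) ^ 2 * C.d = n * (q.den : ℚ) ^ 2 := by
      rw [h4, ← hn]; ring
    exact_mod_cast h5
  have h6 : IsCoprime ((q.den : ℤ) ^ 2) (q.num ^ 2) := by
    apply IsCoprime.pow
    rw [Int.isCoprime_iff_gcd_eq_one]
    have := q.reduced
    rw [Nat.Coprime, Nat.gcd_comm] at this
    simpa [Int.gcd] using this
  have h7 : ((q.den : ℤ)) ^ 2 ∣ C.d :=
    h6.dvd_of_dvd_mul_left ⟨n, by rw [h3]; ring⟩
  have h8 : IsUnit ((q.den : ℤ)) := C.sf _ (by rw [← sq]; exact h7)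
  have h9 : q.den = 1 := by
    have := Int.isUnit_iff.1 h8
    omega
  refine ⟨q.num, ?_⟩
  rw [hx']
  congr 1
  have : (q.num : ℚ) = q := by
    rw [← Rat.mul_den_eq_num q, h9]; simp
  rw [← this]
  simp

theorem real_case (hd : 0 < C.d) {x y : K} (hx : IsIntegral ℤ x) (hy : IsIntegral ℤ y)
    (h : x ^ 2 - C.d * y ^ 2 = 1) : ∃ a b : ℤ, x = (a : K) ∧ y = (b : K) := by
  have hδi : IsIntegral ℤ C.δ := by
    apply IsIntegral.of_pow (n := 2) (by norm_num)
    rw [C.hδ]
    have := isIntegral_algebraMap (R := ℤ) (A := K) (x := C.d)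
    simpa using this
  have huv : (x + C.δ * y) * (x - C.δ * y) = 1 := by
    rw [← h, ← C.hδ]; ring
  set u : K := x + C.δ * y with hu
  set v : K := x - C.δ * y with hv
  have hui : IsIntegral ℤ u := hx.add (hδi.mul hy)
  have hvi : IsIntegral ℤ v := hx.sub (hδi.mul hy)
  have hu0 : u ≠ 0 := left_ne_zero_of_mul_eq_one huv
  have hv0 : v ≠ 0 := right_ne_zero_of_mul_eq_one huv
  have hsu : C.s u = C.s x - C.δ * C.s y := by
    rw [hu, map_add, map_mul, C.sδ]; ring
  have hsv : C.s v = C.s x + C.δ * C.s y := by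
    rw [hv, map_sub, map_mul, C.sδ]; ring
  obtain ⟨n, hn⟩ := int_of_fixed C (hui.mul (integral_s C hui))
    (by rw [map_mul, C.inv]; ring)
  obtain ⟨m, hm⟩ := int_of_fixed C (hvi.mul (integral_s C hvi))
    (by rw [map_mul, C.inv]; ring)
  have hnm : n * m = 1 := by
    have h1 : (n : K) * (m : K) = 1 := by
      rw [← hn, ← hm]
      calc u * C.s u * (v * C.s v) = (u * v) * C.s (u * v) := by rw [map_mul]; ring
        _ = 1 := by rw [huv]; simp
    exact_mod_cast h1
  have h2 : (2 : K) ≠ 0 := two_ne_zero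
  rcases Int.isUnit_iff.1 (IsUnit.of_mul_eq_one m hnm) with h1 | h1
  · have hsuv : C.s u = v := by
      apply mul_left_cancel₀ hu0
      rw [hn, huv, h1]; simp
    have hsvu : C.s v = u := by rw [← hsuv, C.inv]
    have hxx : C.s x = x := by
      apply mul_left_cancel₀ h2
      calc 2 * C.s x = C.s u + C.s v := by rw [hsu, hsv]; ring
        _ = 2 * x := by rw [hsuv, hsvu, hu, hv]; ring
    have hyy : C.s y = y := by
      apply mul_left_cancel₀ (mul_ne_zero h2 C.δ0)
      calc 2 * C.δ * C.s y = C.s v - C.s u := by rw [hsu, hsv]; ring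
        _ = 2 * C.δ * y := by rw [hsuv, hsvu, hu, hv]; ring
    obtain ⟨a, ha⟩ := int_of_fixed C hx hxx
    obtain ⟨b, hb⟩ := int_of_fixed C hy hyy
    exact ⟨a, b, ha, hb⟩
  · exfalso
    have hsuv : C.s u = -v := by
      apply mul_left_cancel₀ hu0
      rw [hn, mul_neg, huv, h1]; simp
    have hsvu : C.s v = -u := by
      have := congrArg C.s hsuv
      rw [C.inv, map_neg] at this
      rw [this, neg_neg]
    have hxx : C.s x = -x := by
      apply mul_left_cancel₀ h2
      calc 2 * C.s x = C.s u + C.s v := by rw [hsu, hsv]; ring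
        _ = 2 * -x := by rw [hsuv, hsvu, hu, hv]; ring
    have hyy : C.s y = -y := by
      apply mul_left_cancel₀ (mul_ne_zero h2 C.δ0)
      calc 2 * C.δ * C.s y = C.s v - C.s u := by rw [hsu, hsv]; ring
        _ = 2 * C.δ * -y := by rw [hsuv, hsvu, hu, hv]; ring
    obtain ⟨r, hr⟩ := int_mul C hx hxx
    obtain ⟨t, ht⟩ := int_mul C hy hyy
    have h3 : C.d * (r ^ 2 - C.d * t ^ 2) = 1 := by
      have h4 : (C.d : K) * ((r : K) ^ 2 - (C.d : K) * (t : K) ^ 2) = 1 := by
        rw [← h, hr, ht, mul_pow, mul_pow, C.hδ]; ring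
      exact_mod_cast h4
    have h5 : C.d = 1 := by
      rcases Int.isUnit_iff.1 (IsUnit.of_mul_eq_one _ h3) with h6 | h6
      · exact h6
      · omega
    have h6 : (C.δ - 1) * (C.δ + 1) = 0 := by
      have : (C.δ - 1) * (C.δ + 1) = C.δ ^ 2 - 1 := by ring
      rw [this, C.hδ, h5]; simp
    have h7 : C.s C.δ = C.δ := by
      rcases mul_eq_zero.1 h6 with h8 | h8
      · rw [sub_eq_zero.1 h8]; simp
      · rw [eq_neg_of_add_eq_zero_left h8]; simp
    rw [C.sδ] at h7
    apply C.δ0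
    have h8 : (2 : K) * C.δ = 0 := by linear_combination -h7
    exact (mul_eq_zero.1 h8).resolve_left h2

/-- positivity of the norm in the imaginary case -/
theorem norm_pos (hd : C.d < 0) (x : K) {n : ℤ} (hn : x * C.s x = (n : K)) :
    0 ≤ n ∧ (n = 0 → x = 0) := by
  have h2 : (2 : K) ≠ 0 := two_ne_zero
  obtain ⟨a, ha⟩ := C.fix ((x + C.s x) / 2) (by
    rw [map_div₀, map_add, C.inv, map_ofNat]; ring)
  obtain ⟨b, hb⟩ := C.fix ((x - C.s x) / (2 * C.δ)) (by
    rw [map_div₀, map_sub, C.inv, map_mul, C.sδ, map_ofNat, mul_neg, div_neg, ← neg_div, neg_sub])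
  have hδ0 := C.δ0
  have hx : x = a + b * C.δ := by
    rw [← ha, ← hb]
    field_simp
    ring
  have hsx : C.s x = a - b * C.δ := by
    rw [← ha, ← hb]
    field_simp
    ring
  have h3 : (n : ℚ) = a ^ 2 - C.d * b ^ 2 := by
    have h4 : ((n : ℚ) : K) = ((a ^ 2 - C.d * b ^ 2 : ℚ) : K) := by
      have h5 : (n : K) = a ^ 2 - C.d * b ^ 2 := by
        rw [← hn, hx, ← C.hδ]
        rw [hx] at hsx
        rw [hsx]; ring
      push_cast
      exact h5
    exact_mod_cast h4
  have hd' : (C.d : ℚ) < 0 := by exact_mod_cast hd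
  have hb2 : 0 ≤ -(C.d : ℚ) * b ^ 2 := mul_nonneg (by linarith) (sq_nonneg b)
  constructor
  · have : (0 : ℚ) ≤ n := by rw [h3]; nlinarith [sq_nonneg a]
    exact_mod_cast this
  · intro h0
    have h5 : a ^ 2 + -(C.d : ℚ) * b ^ 2 = 0 := by
      rw [h0] at h3
      push_cast at h3
      linarith
    have h6 : a ^ 2 = 0 := le_antisymm (by linarith) (sq_nonneg a)
    have h7 : -(C.d : ℚ) * b ^ 2 = 0 := by linarith
    have h8 : a = 0 := pow_eq_zero_iff (two_ne_zero) |>.1 h6
    have h9 : b = 0 := by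
      rcases mul_eq_zero.1 h7 with h | h
      · linarith
      · exact pow_eq_zero_iff (two_ne_zero) |>.1 h
    rw [hx, h8, h9]; simp

theorem imag_case (hd : C.d < 0) : ∀ (n : ℕ) (x y : K), IsIntegral ℤ x → IsIntegral ℤ y →
    x ^ 2 - 3 * y ^ 2 = 1 → y * C.s y = ((n : ℤ) : K) → ∃ a b : ℤ, x = (a : K) ∧ y = (b : K) := by
  intro n
  induction n using Nat.strong_induction_on with
  | _ n ih =>
  intro x y hx hy h hn
  by_cases hy0 : y = 0
  · subst hy0
    have h1 : (x - 1) * (x + 1) = 0 := by linear_combination h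
    rcases mul_eq_zero.1 h1 with h2 | h2
    · exact ⟨1, 0, by rw [sub_eq_zero.1 h2]; simp, by simp⟩
    · exact ⟨-1, 0, by rw [eq_neg_of_add_eq_zero_left h2]; simp, by simp⟩
  have hnorm : ∀ z : K, IsIntegral ℤ z → ∃ m : ℤ, z * C.s z = (m : K) := fun z hz =>
    int_of_fixed C (hz.mul (integral_s C hz)) (by rw [map_mul, C.inv]; ring)
  have i2 : IsIntegral ℤ (2 : K) := by
    have := isIntegral_algebraMap (R := ℤ) (A := K) (x := 2)
    simpa using this
  have i3 : IsIntegral ℤ (3 : K) := by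
    have := isIntegral_algebraMap (R := ℤ) (A := K) (x := 3)
    simpa using this
  have iA : IsIntegral ℤ (2 * y - x) := (i2.mul hy).sub hx
  have iB : IsIntegral ℤ (2 * y + x) := (i2.mul hy).add hx
  obtain ⟨A, hA⟩ := hnorm _ iA
  obtain ⟨B, hB⟩ := hnorm _ iB
  obtain ⟨M, hM⟩ := hnorm _ hx
  obtain ⟨t, ht⟩ := int_of_fixed C (hy.add (integral_s C hy)) (by rw [map_add, C.inv]; ring)
  have hA0 := (norm_pos C hd _ hA).1
  have hB0 := (norm_pos C hd _ hB).1
  have hM0 := (norm_pos C hd _ hM).1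
  have hn1 : 1 ≤ (n : ℤ) := by
    have h1 := norm_pos C hd _ hn
    rcases h1.1.lt_or_eq with h2 | h2
    · omega
    · exact absurd (h1.2 h2.symm) hy0
  have hs3 : C.s x ^ 2 - 3 * C.s y ^ 2 = 1 := by
    have := congrArg C.s h
    rwa [map_sub, map_pow, map_mul, map_pow, map_one, map_ofNat] at this
  have e1 : A + B = 8 * n + 2 * M := by
    have : (A : K) + B = 8 * ((n : ℤ) : K) + 2 * M := by
      rw [← hA, ← hB, ← hn, ← hM, map_sub, map_add, map_mul, map_ofNat]; ring
    exact_mod_cast this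
  have e2 : A * B = n ^ 2 - (t ^ 2 - 2 * n) + 1 := by
    have : (A : K) * B = ((n : ℤ) : K) ^ 2 - (t ^ 2 - 2 * ((n : ℤ) : K)) + 1 := by
      rw [← hA, ← hB, ← hn, ← ht, map_sub, map_add, map_mul, map_ofNat]
      have f1 : (2 * y - x) * (2 * y + x) = y ^ 2 - 1 := by linear_combination -h
      have f2 : (2 * C.s y - C.s x) * (2 * C.s y + C.s x) = C.s y ^ 2 - 1 := by
        linear_combination -hs3
      calc (2 * y - x) * (2 * C.s y - C.s x) * ((2 * y + x) * (2 * C.s y + C.s x))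
          = ((2 * y - x) * (2 * y + x)) * ((2 * C.s y - C.s x) * (2 * C.s y + C.s x)) := by ring
        _ = _ := by rw [f1, f2]; ring
    exact_mod_cast this
  have key : A < n ∨ B < n := by
    by_contra hcon
    push Not at hcon
    have h1 : 0 ≤ (A - n) * (B - n) := mul_nonneg (by linarith [hcon.1]) (by linarith [hcon.2])
    have h2 : 0 ≤ t ^ 2 := sq_nonneg t
    have h3 : 0 ≤ n * M := mul_nonneg (by omega) hM0
    have h4 : (n : ℤ) * (A + B) = n * (8 * n + 2 * M) := by rw [e1]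
    nlinarith
  rcases key with hk | hk
  · obtain ⟨a, b, ha, hb⟩ := ih A.toNat (by omega) (2 * x - 3 * y) (2 * y - x)
      ((i2.mul hx).sub (i3.mul hy)) iA (by linear_combination h)
      (by rw [hA]; congr 1; omega)
    refine ⟨2 * a + 3 * b, a + 2 * b, ?_, ?_⟩
    · push_cast; rw [← ha, ← hb]; ring
    · push_cast; rw [← ha, ← hb]; ring
  · obtain ⟨a, b, ha, hb⟩ := ih B.toNat (by omega) (2 * x + 3 * y) (2 * y + x)
      ((i2.mul hx).add (i3.mul hy)) iB (by linear_combination h)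
      (by rw [hB]; congr 1; omega)
    refine ⟨2 * a - 3 * b, 2 * b - a, ?_, ?_⟩
    · push_cast; rw [← ha, ← hb]; ring
    · push_cast; rw [← ha, ← hb]; ring

end conj2

/-- the Pell conic `x ^ 2 - D y ^ 2 = 1` -/
noncomputable def pell (D : ℤ) : MvPolynomial (Fin 2) ℤ :=
  MvPolynomial.X 0 ^ 2 - MvPolynomial.C D * MvPolynomial.X 1 ^ 2 - 1

theorem pell_infinite {D : ℤ} (h0 : 0 < D) (h1 : ¬ IsSquare D) :
    {p : Fin 2 → ℤ | MvPolynomial.eval p (pell D) = 0}.Infinite := by
  obtain ⟨a, ha⟩ := Pell.IsFundamental.exists_of_not_isSquare h0 h1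
  let f : ℤ → (Fin 2 → ℤ) := fun n => ![(a ^ n).x, (a ^ n).y]
  have hf : Function.Injective f := by
    intro m n hmn
    have : (a ^ m).y = (a ^ n).y := by
      have := congrFun hmn 1
      simpa [f] using this
    exact ha.y_strictMono.injective this
  refine (Set.infinite_range_of_injective hf).mono ?_
  rintro _ ⟨n, rfl⟩
  have := (a ^ n).prop
  simp only [pell, Set.mem_ofPred_eq, map_sub, map_mul, map_pow, MvPolynomial.eval_X,
    MvPolynomial.eval_C, map_one, f, Matrix.cons_val_zero, Matrix.cons_val_one]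
  linarith

theorem not_isSquare_three : ¬ IsSquare (3 : ℤ) := by
  rintro ⟨r, hr⟩
  have h1 : r < 2 := by nlinarith
  have h2 : -2 < r := by nlinarith
  interval_cases r <;> omega

theorem back {K : Type*} [Field K] [NumberField K] (x : 𝓞 K) (a : ℤ) (h : (x : K) = (a : K)) :
    x = (a : 𝓞 K) := by
  apply RingOfIntegers.ext
  rw [h]
  simp

/-- `x ^ 2 - 3 y ^ 2 = 1` over an imaginary quadratic field -/
theorem points_imag {K : Type*} [Field K] [NumberField K] (C : Conj K) (hd : C.d < 0)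
    (x y : 𝓞 K) (h : x ^ 2 - ((3 : ℤ) : 𝓞 K) * y ^ 2 = 1) :
    ∃ a b : ℤ, x = (a : 𝓞 K) ∧ y = (b : 𝓞 K) := by
  have h' : (x : K) ^ 2 - 3 * (y : K) ^ 2 = 1 := by
    have h3 := congrArg (algebraMap (𝓞 K) K) h
    have e : algebraMap (𝓞 K) K ((3 : ℤ) : 𝓞 K) = 3 := by
      rw [map_intCast]; norm_num
    rw [map_sub, map_pow, map_mul, map_pow, map_one, e] at h3
    exact h3
  have hx : IsIntegral ℤ (x : K) := x.isIntegral_coe
  have hy : IsIntegral ℤ (y : K) := y.isIntegral_coe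
  obtain ⟨m, hm⟩ := int_of_fixed C (hy.mul (integral_s C hy))
    (by rw [map_mul, C.inv]; ring)
  have hm0 := (norm_pos C hd _ hm).1
  obtain ⟨a, b, ha, hb⟩ := imag_case C hd m.toNat x y hx hy h'
    (by rw [hm]; congr 1; omega)
  exact ⟨a, b, back _ _ ha, back _ _ hb⟩

/-- integral points of the Pell conic, for `K` quadratic -/
theorem pell_points (K : Type*) [Field K] [NumberField K] (hK : finrank ℚ K = 2) :
    ∃ D : ℤ, 0 < D ∧ ¬ IsSquare D ∧ ∀ x y : 𝓞 K, x ^ 2 - (D : 𝓞 K) * y ^ 2 = 1 →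
      ∃ a b : ℤ, x = (a : 𝓞 K) ∧ y = (b : 𝓞 K) := by
  obtain ⟨C⟩ := nonempty_conj hK
  have hd0 : C.d ≠ 0 := C.sf.ne_zero
  rcases lt_or_gt_of_ne hd0 with hd | hd
  · exact ⟨3, by norm_num, not_isSquare_three, points_imag C hd⟩
  · refine ⟨C.d, hd, ?_, ?_⟩
    · rintro ⟨r, hr⟩
      have h1 : IsUnit r := C.sf r ⟨1, by rw [hr]; ring⟩
      have h2 : C.d = 1 := by
        rcases Int.isUnit_iff.1 h1 with h3 | h3 <;> rw [hr, h3] <;> norm_num
      have h6 : (C.δ - 1) * (C.δ + 1) = 0 := by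
        have : (C.δ - 1) * (C.δ + 1) = C.δ ^ 2 - 1 := by ring
        rw [this, C.hδ, h2]; simp
      have h7 : C.s C.δ = C.δ := by
        rcases mul_eq_zero.1 h6 with h8 | h8
        · rw [sub_eq_zero.1 h8]; simp
        · rw [eq_neg_of_add_eq_zero_left h8]; simp
      rw [C.sδ] at h7
      apply C.δ0
      have h8 : (2 : K) * C.δ = 0 := by linear_combination -h7
      exact (mul_eq_zero.1 h8).resolve_left two_ne_zero
    · intro x y h
      have h' : (x : K) ^ 2 - (C.d : K) * (y : K) ^ 2 = 1 := by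
        have := congrArg (fun z : 𝓞 K => (z : K)) h
        simpa using this
      obtain ⟨a, b, ha, hb⟩ := real_case C hd x.isIntegral_coe y.isIntegral_coe h'
      exact ⟨a, b, back _ _ ha, back _ _ hb⟩

/-- a totally complex quadratic field is `ℚ(√d)` with `d < 0` -/
theorem d_neg {K : Type*} [Field K] [NumberField K] (C : Conj K) [hK : IsTotallyComplex K] :
    C.d < 0 := by
  have hd0 : C.d ≠ 0 := C.sf.ne_zero
  rcases lt_or_gt_of_ne hd0 with hd | hd
  · exact hd
  exfalso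
  obtain ⟨φ⟩ : Nonempty (K →+* ℂ) := inferInstance
  have hδ : φ C.δ ^ 2 = ((C.d : ℝ) : ℂ) := by
    rw [← map_pow, C.hδ, map_intCast]; simp
  have hdr : (0 : ℝ) < C.d := by exact_mod_cast hd
  have hre : (starRingEnd ℂ) (φ C.δ) = φ C.δ := by
    have h1 : (φ C.δ - (Real.sqrt C.d : ℂ)) * (φ C.δ + (Real.sqrt C.d : ℂ)) = 0 := by
      have h2 : ((Real.sqrt C.d : ℝ) : ℂ) ^ 2 = ((C.d : ℝ) : ℂ) := by
        rw [← Complex.ofReal_pow, Real.sq_sqrt hdr.le]
      linear_combination hδ - h2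
    rcases mul_eq_zero.1 h1 with h2 | h2
    · rw [sub_eq_zero.1 h2, Complex.conj_ofReal]
    · rw [eq_neg_of_add_eq_zero_left h2, map_neg, Complex.conj_ofReal]
  have hreal : ComplexEmbedding.IsReal φ := by
    rw [ComplexEmbedding.isReal_iff]
    apply RingHom.ext
    intro x
    obtain ⟨a, ha⟩ := C.fix ((x + C.s x) / 2) (by
      rw [map_div₀, map_add, C.inv, map_ofNat]; ring)
    obtain ⟨b, hb⟩ := C.fix ((x - C.s x) / (2 * C.δ)) (by
      rw [map_div₀, map_sub, C.inv, map_mul, C.sδ, map_ofNat, mul_neg, div_neg, ← neg_div, neg_sub])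
    have hδ0 := C.δ0
    have hx : x = a + b * C.δ := by
      rw [← ha, ← hb]
      field_simp
      ring
    rw [hx]
    simp [ComplexEmbedding.conjugate_coe_eq, hre]
  exact (InfinitePlace.not_isReal_iff_isComplex.2 (hK.isComplex (InfinitePlace.mk φ)))
    ⟨φ, hreal, rfl⟩

/-- the coordinate ring of the Pell conic -/
abbrev PellRing (D : ℤ) : Type := MvPolynomial (Fin 2) ℤ ⧸ Ideal.span {pell D}

/-- points of the Pell conic with values in a ring -/
theorem pell_hom {R : Type} [CommRing R] (D : ℤ) (p : Fin 2 → R)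
    (hp : (p 0) ^ 2 - (D : R) * (p 1) ^ 2 = 1) : ∃ φ : PellRing D →+* R,
      ∀ i, φ (Ideal.Quotient.mk _ (MvPolynomial.X i)) = p i := by
  have h0 : MvPolynomial.aeval (R := ℤ) p (pell D) = 0 := by
    simp only [pell, map_sub, map_mul, map_pow, MvPolynomial.aeval_X, MvPolynomial.aeval_C,
      map_one]
    rw [← hp]
    simp
  refine ⟨Ideal.Quotient.lift _ (MvPolynomial.aeval (R := ℤ) p).toRingHom ?_, fun i => ?_⟩
  · intro a ha
    obtain ⟨b, rfl⟩ := Ideal.mem_span_singleton'.1 ha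
    simp [h0]
  · simp

theorem hom_pell {R : Type} [CommRing R] (D : ℤ) (χ : MvPolynomial (Fin 2) ℤ →+* R) :
    χ (pell D) = (χ (MvPolynomial.X 0)) ^ 2 - (D : R) * (χ (MvPolynomial.X 1)) ^ 2 - 1 := by
  have : (MvPolynomial.C D : MvPolynomial (Fin 2) ℤ) = ((D : ℤ) : MvPolynomial (Fin 2) ℤ) := by
    simp
  simp only [pell, map_sub, map_mul, map_pow, map_one, this, map_intCast]

theorem pell_hom_eq {R : Type} [CommRing R] (D : ℤ) (φ : PellRing D →+* R) :
    (φ (Ideal.Quotient.mk _ (MvPolynomial.X 0))) ^ 2 -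
      (D : R) * (φ (Ideal.Quotient.mk _ (MvPolynomial.X 1))) ^ 2 = 1 := by
  have h1 : Ideal.Quotient.mk (Ideal.span {pell D}) (pell D) = 0 :=
    Ideal.Quotient.eq_zero_iff_mem.2 (Ideal.mem_span_singleton_self _)
  have h2 : (φ.comp (Ideal.Quotient.mk (Ideal.span {pell D}))) (pell D) = 0 := by
    rw [RingHom.comp_apply, h1, map_zero]
  rw [hom_pell] at h2
  exact sub_eq_zero.1 h2

theorem pell_hom_ext {R : Type} [CommRing R] (D : ℤ) (φ ψ : PellRing D →+* R)
    (h : ∀ i, φ (Ideal.Quotient.mk _ (MvPolynomial.X i)) =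
      ψ (Ideal.Quotient.mk _ (MvPolynomial.X i))) : φ = ψ := by
  apply Ideal.Quotient.ringHom_ext
  apply MvPolynomial.ringHom_ext
  · intro n
    have : (MvPolynomial.C n : MvPolynomial (Fin 2) ℤ) = ((n : ℤ) : MvPolynomial (Fin 2) ℤ) := by
      simp
    rw [this, map_intCast, map_intCast]
  · intro i
    exact h i

open AlgebraicGeometry CategoryTheory

/-- the structure morphism of the Pell conic -/
noncomputable abbrev pellMap (D : ℤ) :
    Spec (CommRingCat.of (PellRing D)) ⟶ Spec (CommRingCat.of ℤ) :=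
  Spec.map (CommRingCat.ofHom (algebraMap ℤ (PellRing D)))

theorem pellMap_finiteType (D : ℤ) : LocallyOfFiniteType (pellMap D) := by
  rw [HasRingHomProperty.Spec_iff (P := @LocallyOfFiniteType)]
  have : Algebra.FiniteType ℤ (PellRing D) := inferInstance
  exact (RingHom.finiteType_algebraMap).2 this

theorem pell_scheme_infinite {D : ℤ} (h0 : 0 < D) (h1 : ¬ IsSquare D) :
    Infinite (Spec (CommRingCat.of ℤ) ⟶ Spec (CommRingCat.of (PellRing D))) := by
  have hinf := pell_infinite h0 h1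
  have : Infinite {p : Fin 2 → ℤ | MvPolynomial.eval p (pell D) = 0} := hinf.to_subtype
  have hex : ∀ p : {p : Fin 2 → ℤ | MvPolynomial.eval p (pell D) = 0},
      ∃ φ : PellRing D →+* ℤ, ∀ i, φ (Ideal.Quotient.mk _ (MvPolynomial.X i)) = p.1 i := by
    rintro ⟨p, hp⟩
    apply pell_hom
    simp only [pell, Set.mem_ofPred_eq, map_sub, map_mul, map_pow, MvPolynomial.eval_X,
      MvPolynomial.eval_C, map_one] at hp
    simpa using sub_eq_zero.1 hp
  choose φ hφ using hex
  refine Infinite.of_injective (fun p => Spec.map (CommRingCat.ofHom (φ p))) ?_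
  intro p q hpq
  have h2 := Spec.map_injective hpq
  have h3 : φ p = φ q := by
    have := congrArg CommRingCat.Hom.hom h2
    simpa using this
  apply Subtype.ext
  funext i
  rw [← hφ p i, ← hφ q i, h3]

theorem pell_scheme_bijective {K : Type} [Field K] [NumberField K] {D : ℤ}
    (h : ∀ x y : 𝓞 K, x ^ 2 - (D : 𝓞 K) * y ^ 2 = 1 →
      ∃ a b : ℤ, x = (a : 𝓞 K) ∧ y = (b : 𝓞 K)) :
    Function.Bijective (fun g : Spec (CommRingCat.of ℤ) ⟶ Spec (CommRingCat.of (PellRing D)) =>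
          Spec.map (CommRingCat.ofHom (algebraMap ℤ (𝓞 K))) ≫ g) := by
  refine ⟨?_, ?_⟩
  · intro g g' hgg
    obtain ⟨φ, rfl⟩ := Spec.map_surjective g
    obtain ⟨ψ, rfl⟩ := Spec.map_surjective g'
    simp only [← Spec.map_comp] at hgg
    have h2 := Spec.map_injective hgg
    have h3 : ∀ a, algebraMap ℤ (𝓞 K) (φ.hom a) = algebraMap ℤ (𝓞 K) (ψ.hom a) := by
      intro a
      have := congrArg (fun χ => CommRingCat.Hom.hom χ a) h2
      simpa using this
    congr 1
    apply CommRingCat.hom_ext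
    apply RingHom.ext
    intro a
    exact (FaithfulSMul.algebraMap_injective ℤ (𝓞 K)) (h3 a)
  · intro g
    obtain ⟨ψ, rfl⟩ := Spec.map_surjective g
    obtain ⟨a, b, ha, hb⟩ := h _ _ (pell_hom_eq D ψ.hom)
    have hab : a ^ 2 - D * b ^ 2 = 1 := by
      have h5 := pell_hom_eq D ψ.hom
      rw [ha, hb] at h5
      exact_mod_cast h5
    obtain ⟨φ, hφ⟩ := pell_hom (R := ℤ) D ![a, b] (by simpa using hab)
    refine ⟨Spec.map (CommRingCat.ofHom φ), ?_⟩
    simp only [← Spec.map_comp]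
    congr 1
    apply CommRingCat.hom_ext
    apply pell_hom_ext
    intro i
    have h6 := hφ i
    fin_cases i
    · simp only [Fin.zero_eta, CommRingCat.hom_comp, CommRingCat.hom_ofHom, RingHom.comp_apply]
      rw [show (⟨0, by norm_num⟩ : Fin 2) = 0 from rfl] at *
      rw [ha]
      erw [h6]
      simp
    · simp only [CommRingCat.hom_comp, CommRingCat.hom_ofHom, RingHom.comp_apply]
      erw [h6]
      simp [hb]

/-- **Main theorem.**  (A) For every quadratic field `K` there is a scheme of finite type over `ℤ`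
with infinitely many `ℤ`-points such that every `𝓞 K`-point comes from exactly one `ℤ`-point.
(B) One and the same scheme has this property for all imaginary quadratic fields `K`.

(The scheme is the Pell conic `x ^ 2 - D y ^ 2 = 1`, with `D = 3` for all imaginary quadratic
fields, and `D = d` for the real quadratic field `ℚ(√d)`, `d` squarefree.) -/
theorem result : (∀ (K : Type) [Field K] [NumberField K], finrank ℚ K = 2 →
      ∃ (X : Scheme.{0}) (f : X ⟶ Spec (CommRingCat.of ℤ)),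
        LocallyOfFiniteType f ∧ QuasiCompact f ∧
        Infinite (Spec (CommRingCat.of ℤ) ⟶ X) ∧
        Function.Bijective (fun g : Spec (CommRingCat.of ℤ) ⟶ X =>
          Spec.map (CommRingCat.ofHom (algebraMap ℤ (𝓞 K))) ≫ g)) ∧
    (∃ (X : Scheme.{0}) (f : X ⟶ Spec (CommRingCat.of ℤ)),
        LocallyOfFiniteType f ∧ QuasiCompact f ∧
        Infinite (Spec (CommRingCat.of ℤ) ⟶ X) ∧
        ∀ (K : Type) [Field K] [NumberField K], finrank ℚ K = 2 → IsTotallyComplex K →
          Function.Bijective (fun g : Spec (CommRingCat.of ℤ) ⟶ X =>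
            Spec.map (CommRingCat.ofHom (algebraMap ℤ (𝓞 K))) ≫ g)) := by
  refine ⟨?_, ?_⟩
  · intro K _ _ hK
    obtain ⟨D, h0, h1, h⟩ := pell_points K hK
    exact ⟨_, pellMap D, pellMap_finiteType D, inferInstance, pell_scheme_infinite h0 h1,
      pell_scheme_bijective h⟩
  · refine ⟨_, pellMap 3, pellMap_finiteType 3, inferInstance,
      pell_scheme_infinite (by norm_num) not_isSquare_three, ?_⟩
    intro K _ _ hK hc
    obtain ⟨C⟩ := nonempty_conj hK
    exact pell_scheme_bijective (points_imag C (d_neg C))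

end Pool.Agent.Results.MP_14ad9d_nt.QuadraticFields
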